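import Pool.Agent.Lib.MP_5ca319_gt.Final

/-!
Infinite minimal groups that are countably compact, or only precompact, contain non-trivial
convergent sequences.
-/

set_option autoImplicit false

open Filter Topology

namespace Pool.Agent.Results.MP_5ca319_gt.PrecompactMinimal

/-- A space is countably compact if every countable open cover has a finite subcover. -/
def CountablyCompact (X : Type) [TopologicalSpace X] : Prop :=
  ∀ U : ℕ → Set X, (∀ n, IsOpen (U n)) → (∀ x, ∃ n, x ∈ U n) →
    ∃ F : Finset ℕ, ∀ x, ∃ n ∈ F, x ∈ U n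

/-- A group is precompact (totally bounded) if for each neighbourhood `U` of the identity it is
the union of finitely many left translates `x U`. -/
def Precompact (G : Type) [Group G] [TopologicalSpace G] : Prop :=
  ∀ U ∈ 𝓝 (1 : G), ∃ F : Finset G, ∀ g : G, ∃ x ∈ F, ∃ y ∈ U, g = x * y

/-- A topological group `(G, t)` is minimal if every Hausdorff group topology `s` on `G` all of
whose open sets are `t`-open is equal to `t`. -/
def MinimalGroup (G : Type) [Group G] [t : TopologicalSpace G] : Prop :=
  ∀ s : TopologicalSpace G, @IsTopologicalGroup G s _ → @T2Space G s →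
    (∀ U : Set G, IsOpen[s] U → IsOpen[t] U) → s = t

theorem exists_cluster {X : Type} [TopologicalSpace X] (h : CountablyCompact X) (u : ℕ → X) :
    ∃ x : X, MapClusterPt x atTop u := by
  by_contra hcon
  push Not at hcon
  obtain ⟨F, hF⟩ := h (fun m => (closure (u '' Set.Ici m))ᶜ)
    (fun m => isClosed_closure.isOpen_compl) (fun x => by
      have h1 := hcon x
      rw [mapClusterPt_iff_frequently] at h1
      push Not at h1
      obtain ⟨s, hs, hs2⟩ := h1
      rw [eventually_atTop] at hs2
      obtain ⟨m, hm⟩ := hs2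
      refine ⟨m, ?_⟩
      rw [Set.mem_compl_iff, mem_closure_iff_nhds]
      intro h2
      obtain ⟨y, hy, k, hk, rfl⟩ := h2 s hs
      exact hm k hk hy)
  obtain ⟨n, hn, hn2⟩ := hF (u (F.sup id))
  apply hn2
  apply subset_closure
  exact ⟨F.sup id, Finset.le_sup (f := id) hn, rfl⟩

theorem precompact_of_countablyCompact {G : Type} [Group G] [TopologicalSpace G]
    [IsTopologicalGroup G] (h : CountablyCompact G) : Precompact G := by
  intro U hU
  obtain ⟨F, hF⟩ := Pool.Agent.Lib.MP_5ca319_gt.TB_of_cc (exists_cluster h) U hU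
  refine ⟨F, fun g => ?_⟩
  obtain ⟨x, hx, hxg⟩ := hF g
  exact ⟨x, hx, x⁻¹ * g, hxg, by group⟩

/-- Let `G` be an infinite minimal Hausdorff topological group that is countably compact, or only
precompact. Then every point of `G` is the limit of a sequence of pairwise distinct points. -/
theorem result (G : Type) [Group G] [t : TopologicalSpace G] [IsTopologicalGroup G] [T2Space G]
    [Infinite G] (hG : CountablyCompact G ∨ Precompact G) (hmin : MinimalGroup G) (x : G) :
    ∃ u : ℕ → G, Function.Injective u ∧ Tendsto u atTop (𝓝 x) := by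
  have hP : Precompact G := hG.elim precompact_of_countablyCompact id
  have hTB : Pool.Agent.Lib.MP_5ca319_gt.TB G := by
    intro U hU
    obtain ⟨F, hF⟩ := hP U hU
    refine ⟨F, fun g => ?_⟩
    obtain ⟨x, hx, y, hy, rfl⟩ := hF g
    exact ⟨x, hx, by simpa using hy⟩
  have hmin' : ∀ τ' : TopologicalSpace G, @IsTopologicalGroup G τ' _ → @T2Space G τ' →
      t ≤ τ' → τ' = t :=
    fun s h1 h2 h3 => hmin s h1 h2 (fun U hU => h3 U hU)
  -- it suffices to find one sequence
  suffices h0 : ∃ (u : ℕ → G) (y : G), Function.Injective u ∧ Tendsto u atTop (𝓝 y) by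
    obtain ⟨u, y, hu, huy⟩ := h0
    refine ⟨fun n => x * y⁻¹ * u n, fun m n hmn => hu (mul_left_cancel hmn), ?_⟩
    have h1 := huy.const_mul (x * y⁻¹)
    simpa using h1
  by_contra hno
  obtain ⟨K, _, _, _, _, _, i, hi⟩ := Pool.Agent.Lib.MP_5ca319_gt.exists_compl hTB
  have hSC := Pool.Agent.Lib.MP_5ca319_gt.SC_of_no_seq hi hmin' hno
  obtain ⟨r, hr⟩ := Pool.Agent.Lib.MP_5ca319_gt.faithful hSC
  have hinj : Function.Injective r.ρ := by
    rwa [MonoidHom.ker_eq_bot_iff] at hr
  have hemb := r.cont.isClosedEmbedding hinj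
  have hK : FirstCountableTopology K := hemb.isInducing.firstCountableTopology
  have hG : FirstCountableTopology G := hi.isInducing.firstCountableTopology
  -- the group is not discrete
  have hne : (𝓝[≠] (1 : G)).NeBot := by
    by_contra hbot
    rw [Filter.not_neBot] at hbot
    have h1 : ({1} : Set G) ∈ 𝓝 (1 : G) := by
      have h2 : IsOpen ({1} : Set G) := isOpen_singleton_iff_punctured_nhds _ |>.2 hbot
      exact h2.mem_nhds rfl
    obtain ⟨F, hF⟩ := hP _ h1
    have h3 : (Set.univ : Set G) ⊆ F := by
      intro g _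
      obtain ⟨a, ha, b, hb, rfl⟩ := hF g
      rw [Set.mem_singleton_iff] at hb
      rw [hb, mul_one]
      exact ha
    exact Set.infinite_univ (F.finite_toSet.subset h3)
  obtain ⟨g, hg⟩ := Filter.exists_seq_tendsto (𝓝[≠] (1 : G))
  have hg' := tendsto_nhdsWithin_iff.1 hg
  obtain ⟨N, hN⟩ := eventually_atTop.1 hg'.2
  obtain ⟨u, hu1, hu2⟩ := Pool.Agent.Lib.MP_5ca319_gt.exists_injective_subseq
    (g := fun n => g (n + N)) (x := 1) ((tendsto_add_atTop_iff_nat N).2 hg'.1)
    (fun n => hN (n + N) (Nat.le_add_left _ _))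
  exact hno ⟨u, 1, hu1, hu2⟩

end Pool.Agent.Results.MP_5ca319_gt.PrecompactMinimal
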